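import Pool.Agent.Helper73.Twin3

/-!
# The polar of the twin body of `(K - z)°`, and the average over the positions `z`
-/

set_option autoImplicit false

noncomputable section

namespace Helper26.Mah

open Matrix MeasureTheory Filter Topology Set
open scoped Pointwise ENNReal
open W679AM H712MA Helper73.Twin

variable {n : ℕ} {K : Set (Fin n → ℝ)}

/-- the translate `K - z` -/
def tr (z : Fin n → ℝ) (K : Set (Fin n → ℝ)) : Set (Fin n → ℝ) := (fun x => x - z) '' K

lemma mem_tr (z x : Fin n → ℝ) : x ∈ tr z K ↔ z + x ∈ K := by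
  unfold tr
  constructor
  · rintro ⟨y, hy, rfl⟩
    simpa using hy
  · intro h
    exact ⟨z + x, h, by simp⟩

lemma tr_compact (hc : IsCompact K) (z : Fin n → ℝ) : IsCompact (tr z K) :=
  hc.image (by fun_prop)

lemma tr_convex (hv : Convex ℝ K) (z : Fin n → ℝ) : Convex ℝ (tr z K) := by
  rintro _ ⟨x, hx, rfl⟩ _ ⟨y, hy, rfl⟩ a b ha hb hab
  refine ⟨a • x + b • y, hv hx hy ha hb hab, ?_⟩
  show a • x + b • y - z = a • (x - z) + b • (y - z)
  have e : z = a • z + b • z := by rw [← add_smul, hab, one_smul]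
  rw [smul_sub, smul_sub]
  nth_rewrite 1 [e]
  abel

lemma tr_zero {z : Fin n → ℝ} (hz : z ∈ interior K) : (0 : Fin n → ℝ) ∈ interior (tr z K) := by
  have h2 : tr z K = (Homeomorph.subRight z) '' K := rfl
  rw [h2, ← Homeomorph.image_interior]
  exact ⟨z, hz, by simp⟩

lemma tr_interior (z : Fin n → ℝ) (hi : (interior K).Nonempty) : (interior (tr z K)).Nonempty := by
  have h2 : tr z K = (Homeomorph.subRight z) '' K := rfl
  rw [h2, ← Homeomorph.image_interior]
  exact hi.image _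

lemma tr_volume (z : Fin n → ℝ) : volume (tr z K) = volume K := by
  have : tr z K = (fun x => x + (-z)) '' K := by
    unfold tr
    simp only [sub_eq_add_neg]
  rw [this, image_add_right, measure_preimage_add_right]

lemma tr_obody (hc : IsCompact K) (hv : Convex ℝ K) {z : Fin n → ℝ} (hz : z ∈ interior K) :
    OBody (tr z K) := ⟨tr_compact hc z, tr_convex hv z, tr_zero hz⟩

/-! ### the polar body -/

variable {L : Set (Fin n → ℝ)}

lemma plr_compact (h : OBody L) : IsCompact (GB.plr L) :=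
  Metric.isCompact_of_isClosed_isBounded (GB.plr_closed L) (GAaux.plr_bddA h)

lemma plr_convex (L : Set (Fin n → ℝ)) : Convex ℝ (GB.plr L) := by
  intro x hx y hy a b ha hb hab w hw
  rw [dotProduct_add, dotProduct_smul, dotProduct_smul, smul_eq_mul, smul_eq_mul]
  have h1 := hx w hw
  have h2 := hy w hw
  nlinarith

lemma plr_interior (h : OBody L) : (interior (GB.plr L)).Nonempty := by
  obtain ⟨M, hM⟩ := isBounded_iff_forall_norm_le.1 h.comp.isBounded
  have hM0 : 0 ≤ M := (norm_nonneg _).trans (hM 0 (GAaux.zmem h))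
  refine ⟨0, mem_interior.2 ⟨Metric.ball 0 (1 / (n * M + 1)), fun y hy => ?_,
    Metric.isOpen_ball, Metric.mem_ball_self (by positivity)⟩⟩
  intro x hx
  have h1 := (le_abs_self _).trans (Helper82.Mah.dot_le_of_bound hM hx y)
  rw [mem_ball_zero_iff] at hy
  have h2 : (n : ℝ) * M * ‖y‖ ≤ (n * M) * (1 / (n * M + 1)) :=
    mul_le_mul_of_nonneg_left hy.le (by positivity)
  have h3 : ((n : ℝ) * M) * (1 / (n * M + 1)) ≤ 1 := by
    rw [mul_one_div, div_le_one (by positivity)]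
    linarith
  linarith

/-- the bipolar theorem -/
lemma bipolar (h : OBody L) {x : Fin n → ℝ} (hx : ∀ q ∈ GB.plr L, q ⬝ᵥ x ≤ 1) : x ∈ L := by
  refine Helper82.Mah.mem_of_dot h.comp h.conv fun u => ?_
  obtain ⟨a, ha, hau⟩ := Helper82.Mah.exists_max h u
  refine ⟨a, ha, ?_⟩
  rw [hau]
  rcases eq_or_ne u 0 with rfl | hu
  · rw [dotProduct_zero]
    exact GAaux.hs_nonneg h 0
  · have hp := GAaux.hs_pos h hu
    have h1 : (hs L u)⁻¹ • u ∈ GB.plr L := by
      intro w hw
      rw [dotProduct_smul, smul_eq_mul, inv_mul_le_iff₀ hp, mul_one]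
      exact GAaux.le_hs h hw u
    have h2 := hx _ h1
    rw [smul_dotProduct, smul_eq_mul, inv_mul_le_iff₀ hp, mul_one, dotProduct_comm] at h2
    exact h2

/-- the polar of the twin of the polar -/
lemma mem_pol (h : OBody L) {s : ℝ} {y : Fin n → ℝ}
    (hm : (Fin.cons s y : Fin (n + 1) → ℝ) ∈ GB.plr (twin (GB.plr L))) :
    (-1 ≤ s ∧ s ≤ 1) ∧ (-1 < s → s < 1 → (1 - s)⁻¹ • y ∈ L ∧ -((1 + s)⁻¹ • y) ∈ L) := by
  have h1 : ∀ q ∈ GB.plr L, s + q ⬝ᵥ y ≤ 1 := by
    intro q hq
    have h2 : (Fin.cons 1 q : Fin (n + 1) → ℝ) ∈ twin (GB.plr L) :=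
      subset_convexHull ℝ _ (Or.inl ⟨q, hq, rfl⟩)
    have h3 := hm _ h2
    rwa [cons_dot, one_mul] at h3
  have h1' : ∀ q ∈ GB.plr L, -s - q ⬝ᵥ y ≤ 1 := by
    intro q hq
    have h2 : (Fin.cons (-1) (-q) : Fin (n + 1) → ℝ) ∈ twin (GB.plr L) :=
      subset_convexHull ℝ _ (Or.inr ⟨q, hq, rfl⟩)
    have h3 := hm _ h2
    rw [cons_dot, neg_dotProduct] at h3
    linarith
  have h0 : (0 : Fin n → ℝ) ∈ GB.plr L := by
    intro x _
    rw [dotProduct_zero]
    exact zero_le_one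
  have h4 := h1 0 h0
  have h5 := h1' 0 h0
  rw [zero_dotProduct] at h4 h5
  refine ⟨⟨by linarith, by linarith⟩, fun hs1 hs2 => ⟨?_, ?_⟩⟩
  · refine bipolar h fun q hq => ?_
    rw [dotProduct_smul, smul_eq_mul, inv_mul_le_iff₀ (by linarith), mul_one]
    have := h1 q hq
    linarith
  · refine bipolar h fun q hq => ?_
    rw [dotProduct_neg, dotProduct_smul, smul_eq_mul, ← mul_neg,
      inv_mul_le_iff₀ (by linarith), mul_one]
    have := h1' q hq
    linarith

/-- the region of integration -/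
def reg (K : Set (Fin n → ℝ)) : Set ((Fin n → ℝ) × (Fin n → ℝ) × ℝ) :=
  {p | (-1 < p.2.2 ∧ p.2.2 < 1) ∧ p.1 + (1 - p.2.2)⁻¹ • p.2.1 ∈ K ∧
    p.1 - (1 + p.2.2)⁻¹ • p.2.1 ∈ K}

lemma reg_meas (hc : IsCompact K) : MeasurableSet (reg K) := by
  have hK := hc.measurableSet
  have h1 : Measurable fun p : (Fin n → ℝ) × (Fin n → ℝ) × ℝ => p.1 + (1 - p.2.2)⁻¹ • p.2.1 :=
    measurable_fst.add (((measurable_const.sub (measurable_snd.comp measurable_snd)).inv).smul
      (measurable_fst.comp measurable_snd))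
  have h2 : Measurable fun p : (Fin n → ℝ) × (Fin n → ℝ) × ℝ => p.1 - (1 + p.2.2)⁻¹ • p.2.1 :=
    measurable_fst.sub (((measurable_const.add (measurable_snd.comp measurable_snd)).inv).smul
      (measurable_fst.comp measurable_snd))
  have h3 : Measurable fun p : (Fin n → ℝ) × (Fin n → ℝ) × ℝ => p.2.2 :=
    measurable_snd.comp measurable_snd
  exact ((measurableSet_lt measurable_const h3).inter (measurableSet_lt h3 measurable_const)).inter
    ((h1 hK).inter (h2 hK))

/-- the integrand -/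
def gG (K : Set (Fin n → ℝ)) (p : (Fin n → ℝ) × (Fin n → ℝ) × ℝ) : ℝ≥0∞ :=
  (reg K).indicator (fun _ => 1) p

lemma gG_meas (hc : IsCompact K) : Measurable (gG K) :=
  measurable_const.indicator (reg_meas hc)

/-- the upper bound of the volume of the polar of the twin body -/
def hH (K : Set (Fin n → ℝ)) (z : Fin n → ℝ) : ℝ≥0∞ := ∫⁻ q : (Fin n → ℝ) × ℝ, gG K (z, q)

lemma hH_meas (hc : IsCompact K) : Measurable (hH K) :=
  (gG_meas hc).lintegral_prod_right'

lemma vol_pol_le (hc : IsCompact K) (hv : Convex ℝ K) {z : Fin n → ℝ} (hz : z ∈ interior K) :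
    volume (GB.plr (twin (GB.plr (tr z K)))) ≤ hH K z := by
  have h := tr_obody hc hv hz
  have hcl : MeasurableSet (GB.plr (twin (GB.plr (tr z K)))) := (GB.plr_closed _).measurableSet
  have e1 : volume (GB.plr (twin (GB.plr (tr z K)))) =
      ∫⁻ v, (GB.plr (twin (GB.plr (tr z K)))).indicator (fun _ => (1 : ℝ≥0∞)) v := by
    rw [lintegral_indicator hcl, setLIntegral_const, one_mul]
  have hm : Measurable ((GB.plr (twin (GB.plr (tr z K)))).indicator (fun _ => (1 : ℝ≥0∞))) :=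
    measurable_const.indicator hcl
  rw [e1, lintegral_cons _ hm]
  have hgm : Measurable fun q : (Fin n → ℝ) × ℝ => gG K (z, q) :=
    (gG_meas hc).comp (measurable_const.prodMk measurable_id)
  unfold hH
  rw [Measure.volume_eq_prod, lintegral_prod _ hgm.aemeasurable]
  refine lintegral_mono fun y => ?_
  refine lintegral_mono_ae ?_
  have hne1 : ∀ᵐ s : ℝ, s ≠ 1 := by
    rw [ae_iff]
    simp
  have hne2 : ∀ᵐ s : ℝ, s ≠ -1 := by
    rw [ae_iff]
    simp
  filter_upwards [hne1, hne2] with s hs1 hs2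
  by_cases hmem : (Fin.cons s y : Fin (n + 1) → ℝ) ∈ GB.plr (twin (GB.plr (tr z K)))
  · obtain ⟨⟨ha, hb⟩, hh⟩ := mem_pol h hmem
    have ha' : -1 < s := lt_of_le_of_ne ha (Ne.symm hs2)
    have hb' : s < 1 := lt_of_le_of_ne hb hs1
    obtain ⟨hh1, hh2⟩ := hh ha' hb'
    rw [mem_tr] at hh1 hh2
    have hr : (z, y, s) ∈ reg K := ⟨⟨ha', hb'⟩, hh1, by
      show z - (1 + s)⁻¹ • y ∈ K
      rw [sub_eq_add_neg]
      exact hh2⟩
    rw [indicator_of_mem hmem]
    unfold gG
    rw [indicator_of_mem hr]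
  · rw [indicator_of_notMem hmem]
    exact zero_le

/-- the pointwise inequality -/
theorem pointwise (hc : IsCompact K) (hv : Convex ℝ K) {z : Fin n → ℝ} (hz : z ∈ interior K) :
    ENNReal.ofReal ((2 : ℝ) ^ (n + 1)) ≤
      (∫⁻ y, ENNReal.ofReal (Real.exp (-(hs (tr z K) y)))) * hH K z := by
  have h := tr_obody hc hv hz
  have hQc := plr_compact h
  have hQv := plr_convex (tr z K)
  have hQi := plr_interior h
  have h1 := GB.coord sZ (twin_sbody hQc hQv hQi)
  have h2 := twin_volume hQc hQv hQi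
  have h3 := Helper82.Mah.exp_hs h
  have h4 := vol_pol_le hc hv hz
  have hf : (0 : ℝ) < (n.factorial : ℝ) := by exact_mod_cast Nat.factorial_pos _
  have hf1 : ((n + 1).factorial : ℝ) = ((n : ℝ) + 1) * n.factorial := by
    rw [Nat.factorial_succ]; push_cast; ring
  set Q := GB.plr (tr z K) with hQ
  have h5 : ENNReal.ofReal ((4 : ℝ) ^ (n + 1) / (n + 1).factorial) ≤
      ENNReal.ofReal ((2 : ℝ) ^ (n + 1) / (n + 1)) * (volume Q * hH K z) := by
    calc ENNReal.ofReal ((4 : ℝ) ^ (n + 1) / (n + 1).factorial)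
        ≤ volume (twin Q) * volume (GB.plr (twin Q)) := h1
      _ ≤ (ENNReal.ofReal ((2 : ℝ) ^ (n + 1) / (n + 1)) * volume Q) * hH K z := mul_le_mul' h2 h4
      _ = _ := by ring
  set c : ℝ := (n.factorial : ℝ) * ((n + 1) / (2 : ℝ) ^ (n + 1)) with hcdef
  have hc0 : 0 ≤ c := by positivity
  have h6 := mul_le_mul_right h5 (ENNReal.ofReal c)
  have e1 : ENNReal.ofReal c * ENNReal.ofReal ((4 : ℝ) ^ (n + 1) / (n + 1).factorial) =
      ENNReal.ofReal ((2 : ℝ) ^ (n + 1)) := by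
    rw [← ENNReal.ofReal_mul hc0, hcdef, hf1]
    congr 1
    have e4 : (4 : ℝ) ^ (n + 1) = 2 ^ (n + 1) * 2 ^ (n + 1) := by
      rw [← mul_pow]; norm_num
    rw [e4]
    field_simp
  have e2 : ENNReal.ofReal c * (ENNReal.ofReal ((2 : ℝ) ^ (n + 1) / (n + 1)) *
      (volume Q * hH K z)) = (ENNReal.ofReal (n.factorial : ℝ) * volume Q) * hH K z := by
    rw [← mul_assoc, ← ENNReal.ofReal_mul hc0]
    have : c * ((2 : ℝ) ^ (n + 1) / (n + 1)) = n.factorial := by
      rw [hcdef]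
      field_simp
    rw [this]
    ring
  rw [e1, e2] at h6
  exact h6.trans (mul_le_mul_left h3 _)

end Helper26.Mah

end
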