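import Pool.Agent.Helper26.Mah.A1

/-!
# The integral over the positions
-/

set_option autoImplicit false

noncomputable section

namespace Helper26.Mah

open Matrix MeasureTheory Filter Topology Set
open scoped Pointwise ENNReal
open W679AM H712MA Helper73.Twin

variable {n : ℕ} {K : Set (Fin n → ℝ)}

/-- scaling -/
lemma lint_smul {r : ℝ} (hr : 0 < r) (F : (Fin n → ℝ) → ℝ≥0∞) (hF : Measurable F) :
    ∫⁻ y, F y = ENNReal.ofReal (r ^ n) * ∫⁻ y, F (r • y) := by
  have h1 := Measure.map_addHaar_smul (volume : Measure (Fin n → ℝ)) hr.ne'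
  have h2 : ∫⁻ y, F (r • y) = ∫⁻ y, F y ∂(Measure.map (r • ·) (volume : Measure (Fin n → ℝ))) := by
    rw [lintegral_map hF (measurable_const_smul r)]
  rw [h2, h1, lintegral_smul_measure]
  simp only [Module.finrank_fintype_fun_eq_card, Fintype.card_fin, smul_eq_mul]
  rw [← mul_assoc, ← ENNReal.ofReal_mul (by positivity), abs_of_nonneg (by positivity),
    mul_inv_cancel₀ (by positivity), ENNReal.ofReal_one, one_mul]

/-- the integral for one value of the height -/
lemma slice (hc : IsCompact K) {a b : ℝ} (ha : 0 < a) (hb : 0 < b) (hab : a + b = 2) :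
    ∫⁻ z : Fin n → ℝ, ∫⁻ y : Fin n → ℝ,
      K.indicator (fun _ => (1 : ℝ≥0∞)) (z + a⁻¹ • y) *
        K.indicator (fun _ => (1 : ℝ≥0∞)) (z - b⁻¹ • y) =
      ENNReal.ofReal ((a * b / 2) ^ n) * volume K ^ 2 := by
  set f : (Fin n → ℝ) → ℝ≥0∞ := K.indicator (fun _ => (1 : ℝ≥0∞)) with hf
  have hfm : Measurable f := measurable_const.indicator hc.measurableSet
  have hfi : ∫⁻ y, f y = volume K := by
    rw [hf, lintegral_indicator hc.measurableSet, setLIntegral_const, one_mul]
  have h1 : ∀ z : Fin n → ℝ, ∫⁻ y, f (z + a⁻¹ • y) * f (z - b⁻¹ • y) =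
      ENNReal.ofReal (a ^ n) * ∫⁻ x, f x * f (z - (a / b) • (x - z)) := by
    intro z
    rw [lint_smul ha (fun y => f (z + a⁻¹ • y) * f (z - b⁻¹ • y))
      ((hfm.comp (measurable_const.add (measurable_const_smul a⁻¹))).mul
        (hfm.comp (measurable_const.sub (measurable_const_smul b⁻¹))))]
    congr 1
    rw [← lintegral_add_left_eq_self (fun x => f x * f (z - (a / b) • (x - z))) z]
    refine lintegral_congr fun w => ?_
    rw [smul_smul, inv_mul_cancel₀ ha.ne', one_smul, smul_smul, add_sub_cancel_left]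
    congr 3
    rw [div_eq_inv_mul]
  rw [lintegral_congr h1]
  have hm2 : Measurable fun p : (Fin n → ℝ) × (Fin n → ℝ) =>
      f p.2 * f (p.1 - (a / b) • (p.2 - p.1)) := by
    refine (hfm.comp measurable_snd).mul (hfm.comp ?_)
    exact measurable_fst.sub ((measurable_snd.sub measurable_fst).const_smul (a / b))
  rw [lintegral_const_mul _ hm2.lintegral_prod_right']
  rw [lintegral_lintegral_swap hm2.aemeasurable]
  have h2 : ∀ x : Fin n → ℝ, ∫⁻ z, f x * f (z - (a / b) • (x - z)) =
      f x * (ENNReal.ofReal ((b / 2) ^ n) * volume K) := by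
    intro x
    have hm3 : Measurable fun z : Fin n → ℝ => f (z - (a / b) • (x - z)) :=
      hfm.comp (measurable_id.sub ((measurable_const.sub measurable_id).const_smul (a / b)))
    rw [lintegral_const_mul _ hm3]
    congr 1
    have hb2 : 0 < b / 2 := by positivity
    rw [lint_smul hb2 _ hm3]
    congr 1
    rw [← hfi, ← lintegral_add_left_eq_self f (-((a / b) • x))]
    refine lintegral_congr fun w => ?_
    congr 1
    have e : (b / 2) • w - (a / b) • (x - (b / 2) • w) =
        ((b / 2) * (1 + a / b)) • w - (a / b) • x := by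
      rw [smul_sub, smul_smul]
      module
    rw [e]
    have e2 : (b / 2) * (1 + a / b) = 1 := by
      field_simp
      linarith
    rw [e2, one_smul]
    abel
  rw [lintegral_congr h2, lintegral_mul_const _ hfm, hfi]
  have e3 : (a * b / 2) ^ n = a ^ n * (b / 2) ^ n := by
    rw [← mul_pow]
    congr 1
    ring
  rw [e3, ENNReal.ofReal_mul (by positivity)]
  ring

/-- the recursion for `∫ (1 - t²)^n` -/
lemma int_rec (n : ℕ) : (2 * (n : ℝ) + 3) * ∫ t in (-1 : ℝ)..1, (1 - t ^ 2) ^ (n + 1) =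
    2 * (n + 1) * ∫ t in (-1 : ℝ)..1, (1 - t ^ 2) ^ n := by
  have hd : ∀ t : ℝ, HasDerivAt (fun t : ℝ => t * (1 - t ^ 2) ^ (n + 1))
      ((2 * (n : ℝ) + 3) * (1 - t ^ 2) ^ (n + 1) - 2 * (n + 1) * (1 - t ^ 2) ^ n) t := by
    intro t
    have h1 : HasDerivAt (fun t : ℝ => 1 - t ^ 2) (-(2 * t)) t := by
      have := (hasDerivAt_pow 2 t).const_sub 1
      simpa using this
    have h2 := h1.pow (n + 1)
    have h3 := (hasDerivAt_id t).mul h2
    refine h3.congr_deriv ?_
    simp only [id, Nat.add_sub_cancel, Pi.pow_apply]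
    push_cast
    ring
  have h4 := intervalIntegral.integral_eq_sub_of_hasDerivAt (a := -1) (b := 1)
    (fun t _ => hd t) (by
      apply Continuous.intervalIntegrable
      fun_prop)
  rw [intervalIntegral.integral_sub, intervalIntegral.integral_const_mul,
    intervalIntegral.integral_const_mul] at h4
  · have h5 : (1 : ℝ) * (1 - 1 ^ 2) ^ (n + 1) - (-1) * (1 - (-1 : ℝ) ^ 2) ^ (n + 1) = 0 := by
      norm_num
    rw [h5] at h4
    linarith
  · apply Continuous.intervalIntegrable
    fun_prop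
  · apply Continuous.intervalIntegrable
    fun_prop

lemma int_val (n : ℕ) : ∫ t in (-1 : ℝ)..1, (1 - t ^ 2) ^ n =
    2 ^ (2 * n + 1) * (n.factorial : ℝ) ^ 2 / (2 * n + 1).factorial := by
  induction n with
  | zero => norm_num
  | succ n ih =>
    have h1 := int_rec n
    rw [ih] at h1
    have h3 : (0 : ℝ) < 2 * (n : ℝ) + 3 := by positivity
    have e1 : ∫ t in (-1 : ℝ)..1, (1 - t ^ 2) ^ (n + 1) =
        (2 * (n + 1) * (2 ^ (2 * n + 1) * (n.factorial : ℝ) ^ 2 / (2 * n + 1).factorial)) /
          (2 * (n : ℝ) + 3) := by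
      rw [eq_div_iff h3.ne', mul_comm]
      exact h1
    rw [e1]
    have f1 : ((2 * (n + 1) + 1).factorial : ℝ) =
        (2 * n + 3) * (2 * n + 2) * (2 * n + 1).factorial := by
      rw [show 2 * (n + 1) + 1 = (2 * n + 1) + 1 + 1 from by ring, Nat.factorial_succ,
        Nat.factorial_succ]
      push_cast
      ring
    have f2 : ((n + 1).factorial : ℝ) = ((n : ℝ) + 1) * n.factorial := by
      rw [Nat.factorial_succ]; push_cast; ring
    rw [f1, f2]
    have f3 : ((2 * n + 1).factorial : ℝ) ≠ 0 := by exact_mod_cast Nat.factorial_ne_zero _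
    have f4 : (n : ℝ) + 1 ≠ 0 := by positivity
    have f5 : (2 * (n : ℝ) + 2) ≠ 0 := by positivity
    rw [show 2 * (n + 1) + 1 = (2 * n + 1) + 2 from by ring, pow_add]
    field_simp
    ring

lemma lint_val (n : ℕ) :
    ∫⁻ t in Ioo (-1 : ℝ) 1, ENNReal.ofReal (((1 - t) * (1 + t) / 2) ^ n) =
      ENNReal.ofReal (2 ^ (n + 1) * ((n.factorial : ℝ) ^ 2 / (2 * n + 1).factorial)) := by
  have hcont : Continuous fun t : ℝ => ((1 - t) * (1 + t) / 2) ^ n := by fun_prop
  have hint : IntegrableOn (fun t : ℝ => ((1 - t) * (1 + t) / 2) ^ n) (Ioo (-1) 1) :=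
    (hcont.continuousOn.integrableOn_Icc (a := -1) (b := 1)).mono_set Ioo_subset_Icc_self
  rw [← ofReal_integral_eq_lintegral_ofReal hint]
  · congr 1
    rw [← integral_Ioc_eq_integral_Ioo, ← intervalIntegral.integral_of_le (by norm_num)]
    have e : ∀ t : ℝ, ((1 - t) * (1 + t) / 2) ^ n = (1 / 2) ^ n * (1 - t ^ 2) ^ n := by
      intro t
      rw [← mul_pow]
      congr 1
      ring
    simp only [e]
    rw [intervalIntegral.integral_const_mul, int_val]
    have e2 : (1 / 2 : ℝ) ^ n * (2 ^ (2 * n + 1) * (n.factorial : ℝ) ^ 2 / (2 * n + 1).factorial) =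
        ((1 / 2 : ℝ) ^ n * 2 ^ (2 * n + 1)) * ((n.factorial : ℝ) ^ 2 / (2 * n + 1).factorial) := by
      ring
    rw [e2]
    congr 1
    rw [show 2 * n + 1 = n + (n + 1) from by ring, pow_add, ← mul_assoc, ← mul_pow]
    norm_num
  · rw [EventuallyLE, ae_restrict_iff' measurableSet_Ioo]
    refine ae_of_all _ fun t ht => ?_
    have h1 : 0 ≤ 1 - t := by linarith [ht.2]
    have h2 : 0 ≤ 1 + t := by linarith [ht.1]
    show (0 : ℝ) ≤ _
    positivity

/-- **the average over the positions** -/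
theorem hH_int (hc : IsCompact K) :
    ∫⁻ z, hH K z = ENNReal.ofReal (2 ^ (n + 1) * ((n.factorial : ℝ) ^ 2 / (2 * n + 1).factorial)) *
      volume K ^ 2 := by
  have hm := gG_meas hc
  have h1 : ∀ z, hH K z = ∫⁻ s : ℝ, ∫⁻ y : Fin n → ℝ, gG K (z, y, s) := by
    intro z
    unfold hH
    have hgm : Measurable fun q : (Fin n → ℝ) × ℝ => gG K (z, q) :=
      hm.comp (measurable_const.prodMk measurable_id)
    rw [Measure.volume_eq_prod]
    exact lintegral_prod_symm' _ hgm
  rw [lintegral_congr h1]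
  have hm3 : Measurable fun p : ((Fin n → ℝ) × ℝ) × (Fin n → ℝ) => gG K (p.1.1, p.2, p.1.2) :=
    hm.comp ((measurable_fst.comp measurable_fst).prodMk
      (measurable_snd.prodMk (measurable_snd.comp measurable_fst)))
  have hm2 : Measurable (Function.uncurry fun (z : Fin n → ℝ) (s : ℝ) =>
      ∫⁻ y : Fin n → ℝ, gG K (z, y, s)) := hm3.lintegral_prod_right'
  rw [lintegral_lintegral_swap hm2.aemeasurable]
  have h2 : ∀ s : ℝ, ∫⁻ z : Fin n → ℝ, ∫⁻ y : Fin n → ℝ, gG K (z, y, s) =
      (Ioo (-1 : ℝ) 1).indicator (fun s => ENNReal.ofReal (((1 - s) * (1 + s) / 2) ^ n) *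
        volume K ^ 2) s := by
    intro s
    by_cases hs : s ∈ Ioo (-1 : ℝ) 1
    · rw [indicator_of_mem hs]
      have ha : 0 < 1 - s := by linarith [hs.2]
      have hb : 0 < 1 + s := by linarith [hs.1]
      rw [← slice hc ha hb (by ring)]
      refine lintegral_congr fun z => lintegral_congr fun y => ?_
      unfold gG
      by_cases h3 : z + (1 - s)⁻¹ • y ∈ K
      · by_cases h4 : z - (1 + s)⁻¹ • y ∈ K
        · rw [indicator_of_mem h3, indicator_of_mem h4, one_mul,
            indicator_of_mem (show (z, y, s) ∈ reg K from ⟨hs, h3, h4⟩)]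
        · rw [indicator_of_notMem h4, mul_zero,
            indicator_of_notMem (show (z, y, s) ∉ reg K from fun h => h4 h.2.2)]
      · rw [indicator_of_notMem h3, zero_mul,
          indicator_of_notMem (show (z, y, s) ∉ reg K from fun h => h3 h.2.1)]
    · rw [indicator_of_notMem hs]
      have : ∀ z y : Fin n → ℝ, gG K (z, y, s) = 0 := by
        intro z y
        unfold gG
        exact indicator_of_notMem (fun h => hs h.1) _
      simp only [this, lintegral_zero]
  rw [lintegral_congr h2, lintegral_indicator measurableSet_Ioo, lintegral_mul_const, lint_val]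
  exact (by fun_prop : Continuous fun t : ℝ =>
    ((1 - t) * (1 + t) / 2) ^ n).measurable.ennreal_ofReal

end Helper26.Mah

end
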