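import Pool.Agent.Helper26.Mah.A2

/-!
# The averaged inequality and the exceptional positions
-/

set_option autoImplicit false

noncomputable section

namespace Helper26.Mah

open Matrix MeasureTheory Filter Topology Set
open scoped Pointwise ENNReal
open W679AM H712MA Helper73.Twin

variable {n : ℕ} {K : Set (Fin n → ℝ)}

/-- the Mahler volume `p = ∞` -/
def MI (L : Set (Fin n → ℝ)) : ℝ≥0∞ :=
  volume L * ∫⁻ y, ENNReal.ofReal (Real.exp (-(hs L y)))

/-- the Mahler volume `p < ∞` -/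
def MP (p : ℝ) (L : Set (Fin n → ℝ)) : ℝ≥0∞ :=
  volume L * ∫⁻ y : Fin n → ℝ, ENNReal.ofReal
    (((∫ x in L, Real.exp (p * ∑ i, x i * y i)) / (volume L).toReal) ^ (-(1 / p)))

lemma MI_le_MP (hc : IsCompact K) (hi : (interior K).Nonempty) {p : ℝ} (hp : 0 < p) :
    MI K ≤ MP p K := by
  refine mul_le_mul_right (lintegral_mono fun y => ENNReal.ofReal_le_ofReal ?_) _
  exact Helper82.Mah.lp_le hc hi hp y

/-- the constant `(n!)² / (2n+1)!` -/
def cst (n : ℕ) : ℝ := (n.factorial : ℝ) ^ 2 / (2 * n + 1).factorial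

lemma cst_pos (n : ℕ) : 0 < cst n := by
  unfold cst
  have h1 : (0 : ℝ) < (n.factorial : ℝ) := by exact_mod_cast Nat.factorial_pos _
  have h2 : (0 : ℝ) < ((2 * n + 1).factorial : ℝ) := by exact_mod_cast Nat.factorial_pos _
  positivity

lemma vol_pos (hi : (interior K).Nonempty) : volume K ≠ 0 :=
  (lt_of_lt_of_le (isOpen_interior.measure_pos volume hi) (measure_mono interior_subset)).ne'

/-- the pointwise inequality for the Mahler volumes -/
lemma pointwise' (hc : IsCompact K) (hv : Convex ℝ K) {z : Fin n → ℝ} (hz : z ∈ interior K) :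
    volume K * ENNReal.ofReal ((2 : ℝ) ^ (n + 1)) ≤ MI (tr z K) * hH K z := by
  unfold MI
  rw [tr_volume, mul_assoc]
  exact mul_le_mul_right (pointwise hc hv hz) _

lemma inv_bound {A M H : ℝ≥0∞} (h : A ≤ M * H) (hH0 : M ≠ 0 ∨ A ≠ 0) : A * M⁻¹ ≤ H := by
  by_cases hM : M = 0
  · rcases hH0 with h1 | h1
    · exact absurd hM h1
    · rw [hM, zero_mul] at h
      exact absurd (le_antisymm h zero_le) h1
  · calc A * M⁻¹ ≤ (M * H) * M⁻¹ := mul_le_mul_left h _
      _ = (M⁻¹ * M) * H := by ring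
      _ ≤ 1 * H := mul_le_mul_left (ENNReal.inv_mul_le_one M) _
      _ = H := one_mul _

lemma inv_pointwise (hc : IsCompact K) (hv : Convex ℝ K) {z : Fin n → ℝ} (hz : z ∈ interior K) :
    volume K * ENNReal.ofReal ((2 : ℝ) ^ (n + 1)) * (MI (tr z K))⁻¹ ≤ hH K z := by
  refine inv_bound (pointwise' hc hv hz) (Or.inr ?_)
  refine mul_ne_zero (vol_pos ⟨z, hz⟩) ?_
  rw [Ne, ENNReal.ofReal_eq_zero, not_le]
  positivity

lemma ae_interior (hv : Convex ℝ K) (hc : IsCompact K) :
    ∀ᵐ z ∂(volume.restrict K), z ∈ interior K := by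
  rw [ae_restrict_iff' hc.measurableSet]
  have h1 := hv.addHaar_frontier (volume : Measure (Fin n → ℝ))
  have h2 : ∀ᵐ z : Fin n → ℝ, z ∉ frontier K := by
    rw [ae_iff]
    simpa using h1
  filter_upwards [h2] with z hz hzK
  by_contra hcon
  exact hz ⟨subset_closure hzK, hcon⟩

/-- **the averaged inequality**, `p = ∞` -/
theorem avg_inf (hc : IsCompact K) (hv : Convex ℝ K) (hi : (interior K).Nonempty) :
    ∫⁻ z in K, (MI (tr z K))⁻¹ ≤ ENNReal.ofReal (cst n) * volume K := by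
  have hK0 := vol_pos hi
  have hKt : volume K ≠ ∞ := hc.measure_lt_top.ne
  set A : ℝ≥0∞ := volume K * ENNReal.ofReal ((2 : ℝ) ^ (n + 1)) with hA
  have hA0 : A ≠ 0 := mul_ne_zero hK0 (by
    rw [Ne, ENNReal.ofReal_eq_zero, not_le]
    positivity)
  have hAt : A ≠ ∞ := ENNReal.mul_ne_top hKt ENNReal.ofReal_ne_top
  have h1 : A * ∫⁻ z in K, (MI (tr z K))⁻¹ ≤ A * (ENNReal.ofReal (cst n) * volume K) := by
    calc A * ∫⁻ z in K, (MI (tr z K))⁻¹ = ∫⁻ z in K, A * (MI (tr z K))⁻¹ :=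
          (lintegral_const_mul' _ _ hAt).symm
      _ ≤ ∫⁻ z in K, hH K z := by
          refine lintegral_mono_ae ?_
          filter_upwards [ae_interior hv hc] with z hz
          exact inv_pointwise hc hv hz
      _ ≤ ∫⁻ z, hH K z := setLIntegral_le_lintegral _ _
      _ = A * (ENNReal.ofReal (cst n) * volume K) := by
          rw [hH_int hc, hA, ENNReal.ofReal_mul (by positivity)]
          unfold cst
          ring
  exact (ENNReal.mul_le_mul_iff_right hA0 hAt).1 h1

/-- **the averaged inequality**, `p < ∞` -/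
theorem avg_p (hc : IsCompact K) (hv : Convex ℝ K) (hi : (interior K).Nonempty) {p : ℝ}
    (hp : 0 < p) :
    ∫⁻ z in K, (MP p (tr z K))⁻¹ ≤ ENNReal.ofReal (cst n) * volume K := by
  refine le_trans (lintegral_mono fun z => ?_) (avg_inf hc hv hi)
  exact ENNReal.inv_le_inv.2 (MI_le_MP (tr_compact hc z) (tr_interior z hi) hp)

/-- **the exceptional positions** -/
theorem exceptional (hc : IsCompact K) (hv : Convex ℝ K) (hi : (interior K).Nonempty) {c : ℝ}
    (hc0 : 0 < c) {M : ℝ≥0∞} (hM : M ≤ ENNReal.ofReal c) :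
    volume {z ∈ K | MI (tr z K) < M} ≤ ENNReal.ofReal (c * cst n) * volume K := by
  have hK0 := vol_pos hi
  have hKt : volume K ≠ ∞ := hc.measure_lt_top.ne
  set A : ℝ≥0∞ := volume K * ENNReal.ofReal ((2 : ℝ) ^ (n + 1)) with hA
  have hA0 : A ≠ 0 := mul_ne_zero hK0 (by
    rw [Ne, ENNReal.ofReal_eq_zero, not_le]
    positivity)
  have hAt : A ≠ ∞ := ENNReal.mul_ne_top hKt ENNReal.ofReal_ne_top
  set D : ℝ≥0∞ := ENNReal.ofReal c with hD
  have hD0 : D ≠ 0 := by
    rw [hD, Ne, ENNReal.ofReal_eq_zero, not_le]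
    exact hc0
  have hDt : D ≠ ∞ := ENNReal.ofReal_ne_top
  have h1 : volume {z ∈ K | MI (tr z K) < M} ≤ volume {z | A * D⁻¹ ≤ hH K z} := by
    have hsub : {z ∈ K | MI (tr z K) < M} ⊆ {z | A * D⁻¹ ≤ hH K z} ∪ frontier K := by
      rintro z ⟨hzK, hz⟩
      by_cases hzi : z ∈ interior K
      · left
        refine le_trans (mul_le_mul_right ?_ A) (inv_pointwise hc hv hzi)
        exact ENNReal.inv_le_inv.2 (hz.le.trans hM)
      · right
        exact ⟨subset_closure hzK, hzi⟩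
    calc volume {z ∈ K | MI (tr z K) < M} ≤ volume ({z | A * D⁻¹ ≤ hH K z} ∪ frontier K) :=
          measure_mono hsub
      _ ≤ volume {z | A * D⁻¹ ≤ hH K z} + volume (frontier K) := measure_union_le _ _
      _ = volume {z | A * D⁻¹ ≤ hH K z} := by
          rw [hv.addHaar_frontier (volume : Measure (Fin n → ℝ)), add_zero]
  have h2 := mul_meas_ge_le_lintegral (μ := volume) (hH_meas hc) (A * D⁻¹)
  rw [hH_int hc] at h2
  have h3 : (A * D⁻¹) * volume {z ∈ K | MI (tr z K) < M} ≤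
      (A * D⁻¹) * (ENNReal.ofReal (c * cst n) * volume K) := by
    refine (mul_le_mul_right h1 _).trans (h2.trans (le_of_eq ?_))
    have e1 : D⁻¹ * ENNReal.ofReal (c * cst n) = ENNReal.ofReal (cst n) := by
      rw [ENNReal.ofReal_mul hc0.le, ← mul_assoc, ← hD, ENNReal.inv_mul_cancel hD0 hDt, one_mul]
    calc ENNReal.ofReal (2 ^ (n + 1) * ((n.factorial : ℝ) ^ 2 / (2 * n + 1).factorial)) *
          volume K ^ 2 = A * (ENNReal.ofReal (cst n) * volume K) := by
          rw [hA, ENNReal.ofReal_mul (by positivity)]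
          unfold cst
          ring
      _ = A * ((D⁻¹ * ENNReal.ofReal (c * cst n)) * volume K) := by rw [e1]
      _ = _ := by ring
  have h4 : A * D⁻¹ ≠ 0 := mul_ne_zero hA0 (ENNReal.inv_ne_zero.2 hDt)
  have h5 : A * D⁻¹ ≠ ∞ := ENNReal.mul_ne_top hAt (ENNReal.inv_ne_top.2 hD0)
  exact (ENNReal.mul_le_mul_iff_right h4 h5).1 h3

end Helper26.Mah

end
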