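import Pool.Agent.Helper26.Mah.A3

/-!
# The simplex
-/

set_option autoImplicit false

noncomputable section

namespace Helper26.Mah

open Matrix MeasureTheory Filter Topology Set
open scoped Pointwise ENNReal
open W679AM H712MA Helper73.Twin

/-- the region `{x ≥ 0, ∑ x ≤ r}` -/
def sr (n : ℕ) (r : ℝ) : Set (Fin n → ℝ) := {x | (∀ i, 0 ≤ x i) ∧ ∑ i, x i ≤ r}

lemma sr_meas (n : ℕ) (r : ℝ) : MeasurableSet (sr n r) := by
  have : sr n r = (⋂ i, {x : Fin n → ℝ | 0 ≤ x i}) ∩ {x : Fin n → ℝ | ∑ i, x i ≤ r} := by
    ext x; simp [sr]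
  rw [this]
  refine (MeasurableSet.iInter fun i => (isClosed_le continuous_const
    (continuous_apply i)).measurableSet).inter (isClosed_le (by fun_prop)
      continuous_const).measurableSet

/-- one step of the Dirichlet integral -/
lemma beta_step (m : ℕ) {r : ℝ} (hr : 0 ≤ r) :
    ∫⁻ s in Icc (0 : ℝ) r, ENNReal.ofReal (s * (r - s) ^ m) =
      ENNReal.ofReal (r ^ (m + 2) / ((m + 1) * (m + 2))) := by
  have hcont : Continuous fun s : ℝ => s * (r - s) ^ m := by fun_prop
  rw [← ofReal_integral_eq_lintegral_ofReal (hcont.continuousOn.integrableOn_Icc)]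
  · congr 1
    rw [integral_Icc_eq_integral_Ioc, ← intervalIntegral.integral_of_le hr]
    have hd : ∀ s : ℝ, HasDerivAt (fun s : ℝ => -(r * (r - s) ^ (m + 1) / (m + 1)) +
        (r - s) ^ (m + 2) / (m + 2)) (s * (r - s) ^ m) s := by
      intro s
      have h1 : HasDerivAt (fun s : ℝ => r - s) (-1) s := by
        simpa using (hasDerivAt_id s).const_sub r
      have h2 := ((h1.pow (m + 1)).const_mul r).div_const ((m : ℝ) + 1)
      have h3 := (h1.pow (m + 2)).div_const ((m : ℝ) + 2)
      refine (h2.neg.add h3).congr_deriv ?_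
      have e1 : m + 2 - 1 = m + 1 := by omega
      have e2 : m + 1 - 1 = m := by omega
      rw [e1, e2]
      push_cast
      have : (m : ℝ) + 1 ≠ 0 := by positivity
      have : (m : ℝ) + 2 ≠ 0 := by positivity
      field_simp
      ring
    rw [intervalIntegral.integral_eq_sub_of_hasDerivAt (fun s _ => hd s)
      (hcont.intervalIntegrable _ _)]
    have : (m : ℝ) + 1 ≠ 0 := by positivity
    have : (m : ℝ) + 2 ≠ 0 := by positivity
    rw [sub_self, zero_pow (by omega), zero_pow (by omega), sub_zero]
    field_simp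
    ring
  · rw [EventuallyLE, ae_restrict_iff' measurableSet_Icc]
    refine ae_of_all _ fun s hs => ?_
    have h1 : 0 ≤ r - s := by linarith [hs.2]
    have h2 := hs.1
    show (0 : ℝ) ≤ _
    positivity

/-- **the Dirichlet integral** -/
theorem dirichlet (n : ℕ) : ∀ r : ℝ, 0 ≤ r →
    ∫⁻ x, (sr n r).indicator (fun x => ENNReal.ofReal ((∏ i, x i) * (r - ∑ i, x i))) x =
      ENNReal.ofReal (r ^ (2 * n + 1) / (2 * n + 1).factorial) := by
  induction n with
  | zero =>
    intro r hr
    have e : ∀ x : Fin 0 → ℝ, (sr 0 r).indicator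
        (fun x => ENNReal.ofReal ((∏ i, x i) * (r - ∑ i, x i))) x = ENNReal.ofReal r := by
      intro x
      rw [indicator_of_mem]
      · simp
      · exact ⟨fun i => i.elim0, by simpa using hr⟩
    rw [lintegral_congr e, lintegral_const]
    simp [MeasureTheory.Measure.volume_pi_eq_dirac (0 : Fin 0 → ℝ)]
  | succ n ih =>
    intro r hr
    have hm : Measurable ((sr (n + 1) r).indicator
        (fun x => ENNReal.ofReal ((∏ i, x i) * (r - ∑ i, x i)))) := by
      refine Measurable.indicator ?_ (sr_meas _ _)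
      exact (by fun_prop : Continuous fun x : Fin (n + 1) → ℝ =>
        (∏ i, x i) * (r - ∑ i, x i)).measurable.ennreal_ofReal
    rw [lintegral_cons _ hm, lintegral_lintegral_swap]
    · have h1 : ∀ s : ℝ, ∫⁻ y : Fin n → ℝ, (sr (n + 1) r).indicator
          (fun x => ENNReal.ofReal ((∏ i, x i) * (r - ∑ i, x i))) (Fin.cons s y) =
          (Icc (0 : ℝ) r).indicator (fun s => ENNReal.ofReal (1 / (2 * n + 1).factorial) *
            ENNReal.ofReal (s * (r - s) ^ (2 * n + 1))) s := by
        intro s
        by_cases hs : s ∈ Icc (0 : ℝ) r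
        · rw [indicator_of_mem hs]
          have h2 : ∀ y : Fin n → ℝ, (sr (n + 1) r).indicator
              (fun x => ENNReal.ofReal ((∏ i, x i) * (r - ∑ i, x i))) (Fin.cons s y) =
              ENNReal.ofReal s * (sr n (r - s)).indicator
                (fun x => ENNReal.ofReal ((∏ i, x i) * ((r - s) - ∑ i, x i))) y := by
            intro y
            have h3 : (Fin.cons s y : Fin (n + 1) → ℝ) ∈ sr (n + 1) r ↔ y ∈ sr n (r - s) := by
              unfold sr
              simp only [mem_ofPred_eq, Fin.forall_fin_succ, Fin.sum_univ_succ, Fin.cons_zero,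
                Fin.cons_succ]
              constructor
              · rintro ⟨⟨_, h4⟩, h5⟩
                exact ⟨h4, by linarith⟩
              · rintro ⟨h4, h5⟩
                exact ⟨⟨hs.1, h4⟩, by linarith⟩
            by_cases h4 : y ∈ sr n (r - s)
            · rw [indicator_of_mem h4, indicator_of_mem (h3.2 h4), ← ENNReal.ofReal_mul hs.1,
                Fin.prod_univ_succ, Fin.sum_univ_succ]
              simp only [Fin.cons_zero, Fin.cons_succ]
              congr 1
              ring
            · rw [indicator_of_notMem h4, indicator_of_notMem (fun h => h4 (h3.1 h)), mul_zero]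
          rw [lintegral_congr h2, lintegral_const_mul' _ _ ENNReal.ofReal_ne_top,
            ih (r - s) (by linarith [hs.2]), ← ENNReal.ofReal_mul hs.1,
            ← ENNReal.ofReal_mul (by positivity)]
          congr 1
          ring
        · rw [indicator_of_notMem hs]
          have h2 : ∀ y : Fin n → ℝ, (sr (n + 1) r).indicator
              (fun x => ENNReal.ofReal ((∏ i, x i) * (r - ∑ i, x i))) (Fin.cons s y) = 0 := by
            intro y
            refine indicator_of_notMem ?_ _
            rintro ⟨h3, h4⟩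
            apply hs
            have h5 := h3 0
            rw [Fin.cons_zero] at h5
            rw [Fin.sum_univ_succ, Fin.cons_zero] at h4
            have h6 : 0 ≤ ∑ i : Fin n, (Fin.cons s y : Fin (n + 1) → ℝ) i.succ :=
              Finset.sum_nonneg fun i _ => h3 i.succ
            exact ⟨h5, by linarith⟩
          rw [lintegral_congr h2, lintegral_zero]
      rw [lintegral_congr h1, lintegral_indicator measurableSet_Icc,
        lintegral_const_mul' _ _ ENNReal.ofReal_ne_top, beta_step _ hr,
        ← ENNReal.ofReal_mul (by positivity)]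
      congr 1
      have f1 : ((2 * (n + 1) + 1).factorial : ℝ) =
          (2 * n + 3) * (2 * n + 2) * (2 * n + 1).factorial := by
        rw [show 2 * (n + 1) + 1 = (2 * n + 1) + 1 + 1 from by ring, Nat.factorial_succ,
          Nat.factorial_succ]
        push_cast
        ring
      rw [f1, show 2 * (n + 1) + 1 = 2 * n + 1 + 2 from by ring]
      have f3 : ((2 * n + 1).factorial : ℝ) ≠ 0 := by exact_mod_cast Nat.factorial_ne_zero _
      push_cast
      have g1 : (2 * (n : ℝ) + 3) ≠ 0 := by positivity
      have g2 : (2 * (n : ℝ) + 2) ≠ 0 := by positivity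
      have g3 : (2 * (n : ℝ) + 1 + 1) = 2 * n + 2 := by ring
      have g4 : (2 * (n : ℝ) + 1 + 2) = 2 * n + 3 := by ring
      rw [g3, g4]
      field_simp
    · exact (hm.comp (cons_cont.measurable.comp measurable_swap)).aemeasurable

/-- the open simplex -/
lemma smp_interior {n : ℕ} {z : Fin n → ℝ} (h : z ∈ interior (smp n)) :
    (∀ i, 0 < z i) ∧ ∑ i, z i < 1 := by
  obtain ⟨ε, hε, hb⟩ := Metric.mem_nhds_iff.1 (mem_interior_iff_mem_nhds.1 h)
  have hball : ∀ w : Fin n → ℝ, ‖w‖ < ε → z + w ∈ smp n := by
    intro w hw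
    apply hb
    rw [Metric.mem_ball, dist_eq_norm, add_sub_cancel_left]
    exact hw
  constructor
  · intro i
    have h1 := hball (fun _ => -(ε / 2)) (by
      rcases isEmpty_or_nonempty (Fin n) with he | he
      · exact (he.false i).elim
      · rw [pi_norm_const, norm_neg, Real.norm_eq_abs, abs_of_pos (by linarith)]
        linarith)
    have h2 := h1.1 i
    simp only [Pi.add_apply] at h2
    linarith
  · rcases isEmpty_or_nonempty (Fin n) with he | he
    · simp
    · have h1 := hball (fun _ => ε / 2) (by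
        rw [pi_norm_const, Real.norm_eq_abs, abs_of_pos (by linarith)]
        linarith)
      have h2 := h1.2
      simp only [Pi.add_apply, Finset.sum_add_distrib, Finset.sum_const, Finset.card_univ,
        Fintype.card_fin, nsmul_eq_mul] at h2
      have h3 : 0 < (n : ℝ) := by
        have : 0 < n := Fin.pos_iff_nonempty.2 he
        exact_mod_cast this
      have : 0 < (n : ℝ) * (ε / 2) := by positivity
      linarith

/-- the Mahler volume of the simplex in every position -/
theorem smp_MI {n : ℕ} {z : Fin n → ℝ} (hz : ∀ i, 0 < z i) (hz1 : ∑ i, z i < 1) :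
    MI (tr z (smp n)) = ENNReal.ofReal (1 / (n.factorial * (∏ i, z i) * (1 - ∑ i, z i))) := by
  have hint : z ∈ interior (smp n) := by
    refine mem_interior.2 ⟨{x | (∀ i, 0 < x i) ∧ ∑ i, x i < 1}, fun x hx =>
      ⟨fun i => (hx.1 i).le, hx.2.le⟩, ?_, hz, hz1⟩
    have : {x : Fin n → ℝ | (∀ i, 0 < x i) ∧ ∑ i, x i < 1} =
        (⋂ i, {x : Fin n → ℝ | 0 < x i}) ∩ {x : Fin n → ℝ | ∑ i, x i < 1} := by
      ext x; simp
    rw [this]
    refine (isOpen_iInter_of_finite fun i => isOpen_lt continuous_const (continuous_apply i)).inter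
      (isOpen_lt (by fun_prop) continuous_const)
  have h := tr_obody (smp_compact n) (smp_convex n) hint
  have h1 : ∫⁻ y, ENNReal.ofReal (Real.exp (-(hs (tr z (smp n)) y))) =
      ENNReal.ofReal (n.factorial : ℝ) * volume (GB.plr (tr z (smp n))) :=
    le_antisymm (exp_hs_le h) (Helper82.Mah.exp_hs h)
  have h2 : volume (smp n) = ENNReal.ofReal (1 / (n.factorial : ℝ)) := by
    have h1 := Pool.Agent.W493.AM.SE1.vol_simplex_aux n 1 zero_le_one
    rw [one_pow] at h1
    rw [← h1]
    rfl
  have h3 := Pool.Agent.W493.AM.SE1.vol_pi z hz hz1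
  have h4 : GB.plr (tr z (smp n)) = {y : Fin n → ℝ | ∀ x : Fin n → ℝ, (∀ i, 0 ≤ x i) →
      ∑ i, x i ≤ 1 → ∑ i, (x i - z i) * y i ≤ 1} := by
    ext y
    unfold GB.plr tr smp
    simp only [mem_ofPred_eq, mem_image]
    constructor
    · intro h x hx hx1
      exact h _ ⟨x, ⟨hx, hx1⟩, rfl⟩
    · rintro h _ ⟨x, ⟨hx, hx1⟩, rfl⟩
      exact h x hx hx1
  have hf : (0 : ℝ) < (n.factorial : ℝ) := by exact_mod_cast Nat.factorial_pos _
  unfold MI
  rw [tr_volume, h1, h2, h4, h3, ← mul_assoc, ← ENNReal.ofReal_mul (by positivity),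
    ← ENNReal.ofReal_mul (by positivity)]
  congr 1
  field_simp

/-- **equality for the simplex** -/
theorem smp_eq (n : ℕ) :
    ∫⁻ z in smp n, (MI (tr z (smp n)))⁻¹ = ENNReal.ofReal (cst n) * volume (smp n) := by
  have hf : (0 : ℝ) < (n.factorial : ℝ) := by exact_mod_cast Nat.factorial_pos _
  have h1 : ∫⁻ z in smp n, (MI (tr z (smp n)))⁻¹ =
      ∫⁻ z in smp n, ENNReal.ofReal (n.factorial : ℝ) *
        ENNReal.ofReal ((∏ i, z i) * (1 - ∑ i, z i)) := by
    refine lintegral_congr_ae ?_
    filter_upwards [ae_interior (smp_convex n) (smp_compact n)] with z hz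
    obtain ⟨h2, h3⟩ := smp_interior hz
    have hP : 0 < ∏ i, z i := Finset.prod_pos fun i _ => h2 i
    have hQ : 0 < 1 - ∑ i, z i := by linarith
    rw [smp_MI h2 h3, ← ENNReal.ofReal_inv_of_pos (by positivity),
      ← ENNReal.ofReal_mul (by positivity)]
    congr 1
    rw [one_div, inv_inv]
    ring
  have h2 : volume (smp n) = ENNReal.ofReal (1 / (n.factorial : ℝ)) := by
    have h1 := Pool.Agent.W493.AM.SE1.vol_simplex_aux n 1 zero_le_one
    rw [one_pow] at h1
    rw [← h1]
    rfl
  have h3 := dirichlet n 1 zero_le_one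
  rw [lintegral_indicator (sr_meas n 1)] at h3
  rw [h1, lintegral_const_mul' _ _ ENNReal.ofReal_ne_top, h2]
  have h4 : sr n 1 = smp n := rfl
  rw [← h4, h3, one_pow, ← ENNReal.ofReal_mul (by positivity), ← ENNReal.ofReal_mul (by
    exact (cst_pos n).le)]
  congr 1
  unfold cst
  field_simp

end Helper26.Mah

end
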